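import Mathlib

namespace Pool.Agent.Results.MP_5e2b9f_al.NotSupportable
open Set

/-- `supp` is a support map making the semigroup supp-perfect. -/
structure SuppPerfect {S X : Type*} [Mul S] (supp : S → Set X) : Prop where
  mul : ∀ f g, supp (f * g) ⊆ supp f ∪ supp g
  comm : ∀ f g, supp f ∩ supp g = ∅ → f * g = g * f
  fin : ∀ f, (supp f).Finite
  fin' : ∀ F ⊆ ⋃ f, supp f, F.Finite → {f | supp f ⊆ F}.Finite
  cent : ∀ F ⊆ ⋃ f, supp f, F.Finite →
    {f | supp f ⊆ F} = Set.centralizer {f | supp f ⊆ (⋃ f, supp f) \ F}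

abbrev K := ZMod 2
abbrev V := ℕ →₀ K

@[ext] structure G where
  v : V
  w : Module.Dual K V
  c : K

noncomputable instance : Group G where
  mul x y := ⟨x.v + y.v, x.w + y.w, x.c + y.c + x.w y.v⟩
  one := ⟨0, 0, 0⟩
  inv x := ⟨-x.v, -x.w, -x.c + x.w x.v⟩
  mul_assoc x y z := G.ext (add_assoc _ _ _) (add_assoc _ _ _)
    (show x.c + y.c + x.w y.v + z.c + (x.w + y.w) z.v =
      x.c + (y.c + z.c + y.w z.v) + x.w (y.v + z.v) by simp; ring)
  one_mul x := G.ext (zero_add _) (zero_add _)
    (show 0 + x.c + (0 : Module.Dual K V) x.v = x.c by simp)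
  mul_one x := G.ext (add_zero _) (add_zero _) (show x.c + 0 + x.w 0 = x.c by simp)
  inv_mul_cancel x := G.ext (neg_add_cancel _) (neg_add_cancel _)
    (show -x.c + x.w x.v + x.c + (-x.w) x.v = 0 by rw [LinearMap.neg_apply]; ring)

lemma comm_iff (x y : G) : x * y = y * x ↔ x.w y.v - y.w x.v = 0 := by
  constructor
  · intro h
    have : x.c + y.c + x.w y.v = y.c + x.c + y.w x.v := congrArg G.c h
    linear_combination this
  · intro h
    exact G.ext (add_comm _ _) (add_comm _ _)
      (show x.c + y.c + x.w y.v = y.c + x.c + y.w x.v by linear_combination h)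

lemma fdc (F : Set G) (hF : F.Finite) : (Set.centralizer (Set.centralizer F)).Finite := by
  have := hF.to_subtype
  let φ : G → F → K := fun x f => f.1.w x.v - x.w f.1.v
  let s := Function.invFun φ
  have key : ∀ g ∈ Set.centralizer (Set.centralizer F), ∀ x : G,
      x.w g.v - g.w x.v = (s (φ x)).w g.v - g.w (s (φ x)).v := by
    intro g hg x
    have h1 : φ (s (φ x)) = φ x := Function.invFun_eq ⟨x, rfl⟩
    have := (comm_iff _ _).1 (hg ⟨x.v - (s (φ x)).v, x.w - (s (φ x)).w, 0⟩ fun f hf =>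
      (comm_iff _ _).2 (by
        have := congrFun h1 ⟨f, hf⟩
        simp only [φ, map_sub, LinearMap.sub_apply] at this ⊢
        linear_combination -this))
    simp only [map_sub, LinearMap.sub_apply] at this
    linear_combination this
  refine Set.Finite.of_finite_image (f := fun g : G =>
    (g.c, fun y => (s y).w g.v - g.w (s y).v)) (Set.toFinite _) fun g hg g' hg' e => ?_
  have e1 : ∀ x : G, x.w g.v - g.w x.v = x.w g'.v - g'.w x.v := fun x => by
    rw [key g hg, key g' hg']; exact congrFun (congrArg Prod.snd e) _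
  refine G.ext ?_ (LinearMap.ext fun v => ?_) (congrArg Prod.fst e)
  · rw [← sub_eq_zero, ← Module.forall_dual_apply_eq_zero_iff K]
    intro w
    have := e1 ⟨0, w, 0⟩
    simpa [sub_eq_zero] using this
  · simpa using e1 ⟨v, 0, 0⟩

theorem result : ∃ (G : Type) (_ : Group G),
    (∀ F : Set G, F.Finite → (Set.centralizer (Set.centralizer F)).Finite) ∧
    ∀ (X : Type*) (supp : G → Set X), ¬ SuppPerfect supp := by
  refine ⟨G, inferInstance, fdc, fun X supp h => ?_⟩
  have : ∀ (R : Set X) (v : V), ∃ t : G, (∃ u : G, supp u ⊆ (⋃ f, supp f) \ R ∧ u.v = v) →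
      supp t ⊆ (⋃ f, supp f) \ R ∧ t.v = v := fun R v => by
    by_cases h : ∃ u : G, supp u ⊆ (⋃ f, supp f) \ R ∧ u.v = v
    · exact ⟨h.choose, fun _ => h.choose_spec⟩
    · exact ⟨1, fun h' => absurd h' h⟩
  choose t ht using this
  let A : ℕ → Set X := fun n => Nat.rec ∅
    (fun _ a => a ∪ ⋃ R ∈ {R | R.Finite ∧ R ⊆ a}, ⋃ v, supp (t R v)) n
  have hs : ∀ n, A (n + 1) = A n ∪ ⋃ R ∈ {R | R.Finite ∧ R ⊆ A n}, ⋃ v, supp (t R v) :=
    fun _ => rfl
  have hc : ∀ n, (A n).Countable := fun n => by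
    induction n with
    | zero => exact countable_empty
    | succ n ih =>
      exact ih.union ((countable_ofPred_finite_subset ih).biUnion fun R _ =>
        countable_iUnion fun v => (h.fin _).countable)
  have hm : Monotone A := monotone_nat_of_le_succ fun n => hs n ▸ subset_union_left
  have hW : ∀ w : Module.Dual K V, supp ⟨0, w, 0⟩ ⊆ ⋃ n, A n := by
    intro w
    have hR : (supp ⟨0, w, 0⟩ ∩ ⋃ n, A n).Finite := (h.fin _).inter_of_left _
    obtain ⟨n, hn⟩ := hm.directed_le.exists_mem_subset_of_finset_subset_biUnion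
      (s := hR.toFinset) (by simp)
    rw [hR.coe_toFinset] at hn
    have h1 := h.cent _ (inter_subset_left.trans (subset_iUnion supp _)) hR
    have h2 : (⟨0, w, 0⟩ : G) ∈ {f | supp f ⊆ supp ⟨0, w, 0⟩ ∩ ⋃ n, A n} := by
      rw [h1]
      intro u hu
      obtain ⟨h3, h4⟩ := ht _ u.v ⟨u, hu, rfl⟩
      have h5 := (comm_iff _ _).1 (h.comm (t _ u.v) ⟨0, w, 0⟩ (eq_empty_of_forall_notMem
        fun x hx => (h3 hx.1).2 ⟨hx.2, mem_iUnion.2 ⟨n + 1, hs n ▸ Or.inr
          (mem_biUnion (show _ ∈ {R | R.Finite ∧ R ⊆ A n} from ⟨hR, hn⟩)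
            (mem_iUnion.2 ⟨_, hx.1⟩))⟩⟩))
      rw [comm_iff]
      simpa [h4] using h5
    exact fun x hx => (h2 hx).2
  have h1 : {f | supp f ⊆ ⋃ n, A n}.Countable := by
    refine ((countable_ofPred_finite_subset ((countable_iUnion hc).mono
      (inter_subset_right (s := ⋃ f, supp f)))).biUnion fun R hR =>
        (h.fin' R (hR.2.trans inter_subset_left) hR.1).countable).mono fun f hf => ?_
    exact mem_biUnion (show supp f ∈ _ from ⟨h.fin f, subset_inter (subset_iUnion supp f) hf⟩)
      (show supp f ⊆ supp f from subset_rfl)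
  have h2 : Function.Injective fun a : ℕ → K =>
      (⟨0, Finsupp.linearCombination K a, 0⟩ : G) := fun a b e => funext fun n => by
    simpa using LinearMap.congr_fun (congrArg G.w e) (Finsupp.single n 1)
  have h3 : (univ : Set (ℕ → K)).Countable :=
    (h1.preimage_of_injOn h2.injOn).mono fun a _ => hW _
  have h4 : Countable (ℕ → K) := countable_univ_iff.1 h3
  obtain ⟨f, hf⟩ := exists_surjective_nat (ℕ → K)
  obtain ⟨n, hn⟩ := hf fun n => f n n + 1
  simpa using congrFun hn n

end Pool.Agent.Results.MP_5e2b9f_al.NotSupportable
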